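import Mathlib
import Pool.Agent.H759R2.Kad.Props3
import Pool.Agent.H711R2.KG.Defs

/-!
Definitions for the degree three bound: finitely additive means, quadratic forms dominated by
a homomorphism, random words.
-/

open scoped ComplexOrder InnerProductSpace ComplexConjugate
open Finset

noncomputable section

namespace Y268.D3

open H759R2.Kad H711R2.KG

/-! ### Means -/

/-- A finitely additive mean on `S`: a linear functional on all complex functions which is
bounded by the supremum on the bounded functions. (Its values at unbounded functions mean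
nothing.) -/
structure Mean (S : Type) where
  E : (S → ℂ) →ₗ[ℂ] ℂ
  one : E (fun _ => 1) = 1
  bd : ∀ (f : S → ℂ) (C : ℝ), (∀ s, ‖f s‖ ≤ C) → ‖E f‖ ≤ C

namespace Mean

variable {S T : Type}

theorem const (E : Mean S) (c : ℂ) : E.E (fun _ => c) = c := by
  have h : (fun _ : S => c) = c • (fun _ : S => (1 : ℂ)) := by
    ext s
    simp
  rw [h, map_smul, E.one, smul_eq_mul, mul_one]

theorem const_mul (E : Mean S) (c : ℂ) (f : S → ℂ) :
    E.E (fun s => c * f s) = c * E.E f := by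
  have h : (fun s : S => c * f s) = c • f := by
    ext s
    simp
  rw [h, map_smul, smul_eq_mul]

theorem mul_const (E : Mean S) (c : ℂ) (f : S → ℂ) :
    E.E (fun s => f s * c) = E.E f * c := by
  have h : (fun s : S => f s * c) = c • f := by
    ext s
    simp [mul_comm]
  rw [h, map_smul, smul_eq_mul, mul_comm]

theorem add' (E : Mean S) (f g : S → ℂ) : E.E (fun s => f s + g s) = E.E f + E.E g :=
  map_add E.E f g

theorem sum' (E : Mean S) {ι : Type*} (t : Finset ι) (f : ι → S → ℂ) :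
    E.E (fun s => ∑ i ∈ t, f i s) = ∑ i ∈ t, E.E (f i) := by
  have h : (fun s => ∑ i ∈ t, f i s) = ∑ i ∈ t, f i := by
    ext s
    simp
  rw [h, map_sum]

/-- The law of the image under a map. -/
def map (E : Mean S) (φ : S → T) : Mean T where
  E :=
    { toFun := fun f => E.E (fun s => f (φ s))
      map_add' := fun f g => E.add' (fun s => f (φ s)) (fun s => g (φ s))
      map_smul' := fun c f => E.const_mul c (fun s => f (φ s)) }
  one := E.one
  bd := fun f C h => E.bd _ C fun s => h (φ s)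

theorem map_E (E : Mean S) (φ : S → T) (f : T → ℂ) : (E.map φ).E f = E.E (fun s => f (φ s)) := rfl

/-- The iterated mean: first over the second variable, then over the first one. -/
def prod (E : Mean S) (E' : Mean T) : Mean (S × T) where
  E :=
    { toFun := fun f => E.E (fun s => E'.E (fun t => f (s, t)))
      map_add' := fun f g => by
        rw [← E.add']
        congr 1
        ext s
        exact E'.add' (fun t => f (s, t)) (fun t => g (s, t))
      map_smul' := fun c f => by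
        rw [RingHom.id_apply, smul_eq_mul, ← E.const_mul]
        congr 1
        ext s
        exact E'.const_mul c (fun t => f (s, t)) }
  one := by
    change E.E (fun s => E'.E (fun _ => 1)) = 1
    rw [E'.one, E.one]
  bd := fun f C h => E.bd _ C fun s => E'.bd _ C fun t => h (s, t)

theorem prod_E (E : Mean S) (E' : Mean T) (f : S × T → ℂ) :
    (E.prod E').E f = E.E (fun s => E'.E (fun t => f (s, t))) := rfl

/-- The average over a finite nonempty type. -/
def fin (Γ : Type) [Fintype Γ] [Nonempty Γ] : Mean Γ where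
  E := (Fintype.card Γ : ℂ)⁻¹ • ∑ i, LinearMap.proj i
  one := by
    simp
  bd := fun f C h => by
    have e : ((Fintype.card Γ : ℂ)⁻¹ • ∑ i, (LinearMap.proj i : (Γ → ℂ) →ₗ[ℂ] ℂ)) f =
        (Fintype.card Γ : ℂ)⁻¹ * ∑ i, f i := by simp
    have h0 : (0 : ℝ) < Fintype.card Γ := by exact_mod_cast Fintype.card_pos
    rw [e, norm_mul, norm_inv, Complex.norm_natCast, inv_mul_le_iff₀ h0]
    calc ‖∑ i, f i‖ ≤ ∑ i, ‖f i‖ := norm_sum_le _ _
      _ ≤ ∑ _i : Γ, C := Finset.sum_le_sum fun i _ => h i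
      _ = _ := by rw [Finset.sum_const, Finset.card_univ, nsmul_eq_mul]

theorem fin_E (Γ : Type) [Fintype Γ] [Nonempty Γ] (f : Γ → ℂ) :
    (Mean.fin Γ).E f = (Fintype.card Γ : ℂ)⁻¹ * ∑ i, f i := by
  simp [Mean.fin]

end Mean

section it

variable {V S : Type} [DecidableEq V]

/-- Iterated mean over the variables in a list; the last variable of the list is averaged
first. The other variables keep their values `ω`. -/
def itE (M : V → Mean S) : List V → ((V → S) → ℂ) → (V → S) → ℂ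
  | [], f => f
  | v :: l, f => fun ω => (M v).E (fun t => itE M l f (Function.update ω v t))

theorem itE_add (M : V → Mean S) (l : List V) (f g : (V → S) → ℂ) (ω : V → S) :
    itE M l (f + g) ω = itE M l f ω + itE M l g ω := by
  induction l generalizing ω with
  | nil => rfl
  | cons v l ih =>
    simp only [itE]
    rw [← (M v).add']
    congr 1
    ext t
    exact ih _

theorem itE_smul (M : V → Mean S) (l : List V) (c : ℂ) (f : (V → S) → ℂ) (ω : V → S) :
    itE M l (c • f) ω = c * itE M l f ω := by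
  induction l generalizing ω with
  | nil => rfl
  | cons v l ih =>
    simp only [itE]
    rw [← (M v).const_mul]
    congr 1
    ext t
    exact ih _

theorem itE_bd (M : V → Mean S) (l : List V) (f : (V → S) → ℂ) (C : ℝ) (h : ∀ ω, ‖f ω‖ ≤ C)
    (ω : V → S) : ‖itE M l f ω‖ ≤ C := by
  induction l generalizing ω with
  | nil => exact h ω
  | cons v l ih => exact (M v).bd _ C fun t => ih _

theorem itE_one (M : V → Mean S) (l : List V) (ω : V → S) : itE M l (fun _ => 1) ω = 1 := by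
  induction l generalizing ω with
  | nil => rfl
  | cons v l ih =>
    simp only [itE]
    simp only [ih]
    exact (M v).one

/-- The iterated mean as a mean. -/
def itMean (M : V → Mean S) (l : List V) (ω : V → S) : Mean (V → S) where
  E :=
    { toFun := fun f => itE M l f ω
      map_add' := fun f g => itE_add M l f g ω
      map_smul' := fun c f => itE_smul M l c f ω }
  one := itE_one M l ω
  bd := fun f C h => itE_bd M l f C h ω

theorem itMean_E (M : V → Mean S) (l : List V) (ω : V → S) (f : (V → S) → ℂ) :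
    (itMean M l ω).E f = itE M l f ω := rfl

end it

/-! ### Forms -/

/-- Complex functions of two vectors, with the topology of pointwise convergence. -/
abbrev Form (K : Type) : Type := K → K → ℂ

section forms

variable {B : Type} [CStarAlgebra B] {K : Type} [NormedAddCommGroup K] [InnerProductSpace ℂ K]

/-- Bounded positive sesquilinear forms (linear in the second variable). -/
structure IsForm (q : Form K) (C : ℝ) : Prop where
  add : ∀ ξ η η', q ξ (η + η') = q ξ η + q ξ η'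
  smul : ∀ (c : ℂ) ξ η, q ξ (c • η) = c * q ξ η
  herm : ∀ ξ η, q η ξ = conj (q ξ η)
  pos : ∀ ξ, 0 ≤ (q ξ ξ).re
  bd : ∀ ξ η, ‖q ξ η‖ ≤ C * ‖ξ‖ * ‖η‖

/-- The form `∑ ⟪w (g s) ξ, w (g s) η⟫`. -/
def qf (w : B →ₗ[ℂ] (K →L[ℂ] K)) {κ : Type} [Fintype κ] (g : κ → B) : Form K :=
  fun ξ η => ∑ s, ⟪w (g s) ξ, w (g s) η⟫_ℂ

/-- Action of `v` on forms. -/
def act (w : B →ₗ[ℂ] (K →L[ℂ] K)) (v : B) (q : Form K) : Form K :=
  fun ξ η => q (w v ξ) (w v η)

/-- Finite families with `∑ g* g = 1 = ∑ g g*`. -/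
def IsPart {κ : Type} [Fintype κ] (g : κ → B) : Prop :=
  ∑ s, star (g s) * g s = 1 ∧ ∑ s, g s * star (g s) = 1

/-- The closed set of limits of the forms `qf w g`, `g` with `∑ g* g = 1 = ∑ g g*`. -/
def CB (w : B →ₗ[ℂ] (K →L[ℂ] K)) : Set (Form K) :=
  closure {q | ∃ (n : ℕ) (g : Fin n → B), IsPart g ∧ q = qf w g}

/-- Amplification of a form. -/
def qa (q : Form K) {ι : Type} [Fintype ι] : Form (HH ι K) := fun ξ η => ∑ i, q (ξ i) (η i)

/-- The form is approximated by `qf w g` with `g` good for averaging. -/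
def DixForm (τ : B →ₗ[ℂ] ℂ) (w : B →ₗ[ℂ] (K →L[ℂ] K)) (q : Form K) : Prop :=
  ∀ (F : Finset K) (Z : Finset B) (ε : ℝ), 0 < ε → ∃ (n : ℕ) (g : Fin n → B), IsPart g ∧
    (∀ ξ ∈ F, ∀ η ∈ F, ‖qf w g ξ η - q ξ η‖ ≤ ε) ∧
    ∀ z ∈ Z, ‖∑ s, g s * z * star (g s) - algebraMap ℂ B (τ z)‖ ≤ ε

/-- Dixmier means on the unitary group. -/
structure DixMean (τ : B →ₗ[ℂ] ℂ) (E : Mean (unitary B)) : Prop where
  dixl : ∀ (φ : B →L[ℂ] ℂ) (y : B),
    E.E (fun v => φ (star (v : B) * y * (v : B))) = τ y * φ 1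
  dixr : ∀ (φ : B →L[ℂ] ℂ) (y : B),
    E.E (fun v => φ ((v : B) * y * star (v : B))) = τ y * φ 1
  orthl : ∀ (S : Type) (E' : Mean S) (y : S → B) (φ : S → (B →L[ℂ] ℂ)) (C : ℝ),
    (∀ s, ‖y s‖ ≤ C) → (∀ s, ‖φ s‖ ≤ C) →
    E.E (fun v => E'.E (fun s => τ (y s * star (v : B)) * φ s (v : B))) = 0
  orthr : ∀ (S : Type) (E' : Mean S) (y : S → B) (φ : S → (B →L[ℂ] ℂ)) (C : ℝ),
    (∀ s, ‖y s‖ ≤ C) → (∀ s, ‖φ s‖ ≤ C) →
    E.E (fun v => E'.E (fun s => τ (y s * (v : B)) * φ s (star (v : B)))) = 0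

/-- A finite family of unitaries closed under products on both sides and adjoints. -/
structure IsGrp {Γ : Type} [Fintype Γ] (g : Γ → unitary B) : Prop where
  right : ∀ h, ∃ φ : Γ ≃ Γ, ∀ i, g (φ i) = g i * g h
  left : ∀ h, ∃ φ : Γ ≃ Γ, ∀ i, g (φ i) = g h * g i
  inv : ∃ φ : Γ ≃ Γ, ∀ i, g (φ i) = star (g i)

/-- The data of one side: a form `q` fixed by the rotation mean `E`, a second Dixmier mean `E'`,
and the core mean `Ec`. -/
structure Side (τ : B →ₗ[ℂ] ℂ) (w : B →ₗ[ℂ] (K →L[ℂ] K)) (q : Form K)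
    (E E' Ec : Mean (unitary B)) : Prop where
  form : ∃ C, IsForm q C
  dix : DixMean τ E
  dix' : DixMean τ E'
  col : ∀ ξ η, E.E (fun v => q (w (v : B) ξ) (w (v : B) η)) = q ξ η
  st : ∀ R : ℝ, ∃ C : ℝ, ∀ ζ ζ' : K, ‖ζ‖ ≤ R → ‖ζ'‖ ≤ R → ∃ ρ ρ' : B →L[ℂ] ℂ,
    ‖ρ‖ ≤ C ∧ ‖ρ'‖ ≤ C ∧ ρ 1 + ρ' 1 = q ζ ζ' ∧
    ∀ y y' : B, Ec.E (fun g => q (w (y * (g : B)) ζ) (w (y' * (g : B)) ζ')) =
      ρ (star y * y') + ρ' (y' * star y)

/-- The data of one side, with the two rotations as a pair. -/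
structure RotPair (τ : B →ₗ[ℂ] ℂ) (w : B →ₗ[ℂ] (K →L[ℂ] K)) (q : Form K)
    (P : Mean (unitary B × unitary B)) (Ec : Mean (unitary B)) : Prop where
  form : ∃ C, IsForm q C
  col : ∀ ξ η, P.E (fun p => q (w (p.1 : B) ξ) (w (p.1 : B) η)) = q ξ η
  dix1 : ∀ (φ : B →L[ℂ] ℂ) (y : B),
    P.E (fun p => φ ((p.1 : B) * y * star (p.1 : B))) = τ y * φ 1
  dix2 : ∀ (φ : unitary B → (B →L[ℂ] ℂ)) (C : ℝ), (∀ u, ‖φ u‖ ≤ C) → ∀ y : B,
    P.E (fun p => φ p.1 ((p.2 : B) * y * star (p.2 : B))) = τ y * P.E (fun p => φ p.1 1)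
  orthl : ∀ (S : Type) (E' : Mean S) (y : unitary B → S → B)
    (φ : unitary B → S → (B →L[ℂ] ℂ)) (C : ℝ),
    (∀ u s, ‖y u s‖ ≤ C) → (∀ u s, ‖φ u s‖ ≤ C) →
    P.E (fun p => E'.E (fun s => τ (y p.1 s * star (p.2 : B)) * φ p.1 s (p.2 : B))) = 0
  orthr : ∀ (S : Type) (E' : Mean S) (y : unitary B → S → B)
    (φ : unitary B → S → (B →L[ℂ] ℂ)) (C : ℝ),
    (∀ u s, ‖y u s‖ ≤ C) → (∀ u s, ‖φ u s‖ ≤ C) →
    P.E (fun p => E'.E (fun s => τ (y p.1 s * (p.2 : B)) * φ p.1 s (star (p.2 : B)))) = 0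
  st : ∀ R : ℝ, ∃ C : ℝ, ∀ ζ ζ' : K, ‖ζ‖ ≤ R → ‖ζ'‖ ≤ R → ∃ ρ ρ' : B →L[ℂ] ℂ,
    ‖ρ‖ ≤ C ∧ ‖ρ'‖ ≤ C ∧ ρ 1 + ρ' 1 = q ζ ζ' ∧
    ∀ y y' : B, Ec.E (fun g => q (w (y * (g : B)) ζ) (w (y' * (g : B)) ζ')) =
      ρ (star y * y') + ρ' (y' * star y)

end forms

/-! ### Random words -/

/-- The random variables: rotations, indexed by an owner and a block, and cores, indexed by a
block. -/
inductive Var : Type
  | rot (o b : ℕ) : Var
  | core (b : ℕ) : Var
  deriving DecidableEq

section words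

variable {B : Type} [CStarAlgebra B]

/-- Samples: pairs of unitaries for each variable. -/
abbrev Smp (B : Type) [CStarAlgebra B] : Type := Var → unitary B × unitary B

/-- The product of the first rotations of the owner `o` in the blocks below `b`. -/
def preH (ω : Smp B) (o : ℕ) : ℕ → unitary B
  | 0 => 1
  | b + 1 => (ω (.rot o b)).1 * preH ω o b

/-- The product of the second rotations of the owner `o` in the blocks below `b`. -/
def preK (ω : Smp B) (o : ℕ) : ℕ → unitary B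
  | 0 => 1
  | b + 1 => (ω (.rot o b)).2 * preK ω o b

/-- The random letter `c`. -/
def Gl (ω : Smp B) (c : ℕ) : unitary B :=
  star (preK ω c (c + 1)) * (ω (.core c)).1 * preH ω c (c + 1)

/-- The word `G c₁ * x₁ * G c₂ * x₂ * ...`. -/
def Wd (G : ℕ → unitary B) : List (ℕ × B) → B
  | [] => 1
  | (c, x) :: l => (G c : B) * x * Wd G l

/-- The values of the averages of pairs of words. -/
def Rv (τ : B →ₗ[ℂ] ℂ) (Φ : B → B → ℂ) : B → B → List (ℕ × B) → List (ℕ × B) → ℂ
  | a, a', [], [] => Φ a a'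
  | a, a', (c, x) :: l, (c', x') :: l' =>
    if c = c' then τ (star a * a') * Rv τ Φ x x' l l' else 0
  | _, _, [], _ :: _ => 0
  | _, _, _ :: _, [] => 0

/-- The variables of the block `s`, for owners at most `n`. -/
def stageVars (n s : ℕ) : List Var :=
  (List.range (n + 1)).map (fun o => Var.rot o s) ++ [Var.core s]

/-- The variables of the blocks below `s`, for owners at most `n`. -/
def vars (n : ℕ) : ℕ → List Var
  | 0 => []
  | s + 1 => vars n s ++ stageVars n s

/-- The means of the variables. -/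
def Mv (P : Mean (unitary B × unitary B)) (Ec : Mean (unitary B)) :
    Var → Mean (unitary B × unitary B)
  | .rot _ _ => P
  | .core _ => Ec.map (fun g => (g, 1))

variable {K : Type} [NormedAddCommGroup K] [InnerProductSpace ℂ K]

/-- The laws of random words in the random unitaries `G`, with the random prefix `p`. -/
structure WordLaw (τ : B →ₗ[ℂ] ℂ) (w : B →ₗ[ℂ] (K →L[ℂ] K)) (q : Form K) {Ω : Type}
    (E : Mean Ω) (p : Ω → unitary B) (G : Ω → ℕ → unitary B) (n : ℕ) : Prop where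
  form : ∀ (l l' : List (ℕ × B)), (l.map Prod.fst).Nodup →
    (l'.map Prod.fst).Perm (l.map Prod.fst) → (∀ x ∈ l, x.1 < n) → ∀ (a a' : B) (θ θ' : K),
    E.E (fun ω => q (w ((p ω : B) * (a * Wd (G ω) l)) θ)
      (w ((p ω : B) * (a' * Wd (G ω) l')) θ')) =
      Rv τ (fun y y' => q (w y θ) (w y' θ')) a a' l l'
  alg : ∀ (l l' : List (ℕ × B)), (l.map Prod.fst).Nodup →
    (l'.map Prod.fst).Perm (l.map Prod.fst) → (∀ x ∈ l, x.1 < n) → ∀ (a a' : B)
    (φ : B →L[ℂ] ℂ),
    E.E (fun ω => φ (star (a * Wd (G ω) l) * (a' * Wd (G ω) l'))) =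
      Rv τ (fun y y' => φ (star y * y')) a a' l l'

end words

end Y268.D3
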