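import Mathlib
import Pool.Agent.Y268.D3.Defs
import Pool.Agent.H711R2.KG.KAProps

/-!
Statements of the pieces of the degree three bound.
-/

open scoped ComplexOrder InnerProductSpace ComplexConjugate Topology
open Finset Filter

noncomputable section

namespace Y268.D3

open H759R2.Kad H711R2.KG

/-! ### Means -/

/-- Limits of means along an ultrafilter. -/
def S_mkmean : Prop :=
  ∀ (S M : Type) (U : Ultrafilter M) (a : M → Mean S), ∃ E : Mean S,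
    ∀ (f : S → ℂ) (C : ℝ), (∀ s, ‖f s‖ ≤ C) →
      Tendsto (fun m => (a m).E f) (U : Filter M) (𝓝 (E.E f))

/-- Means of real functions, and of conjugates. -/
def S_real : Prop :=
  ∀ (S : Type) (E : Mean S),
    (∀ (f : S → ℝ) (C : ℝ), (∀ s, |f s| ≤ C) → (E.E (fun s => (f s : ℂ))).im = 0 ∧
      ((∀ s, 0 ≤ f s) → 0 ≤ (E.E (fun s => (f s : ℂ))).re)) ∧
    (∀ (f : S → ℂ) (C : ℝ), (∀ s, ‖f s‖ ≤ C) →
      E.E (fun s => conj (f s)) = conj (E.E f) ∧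
      E.E (fun s => ((f s).re : ℂ)) = ((E.E f).re : ℂ))

/-- A weak mean is a norm limit of convex combinations. -/
def S_mazur : Prop :=
  ∀ (S : Type) (E : Mean S) (V : Type) [NormedAddCommGroup V] [NormedSpace ℂ V]
    (F : S → V) (C : ℝ), (∀ s, ‖F s‖ ≤ C) → ∀ v : V,
    (∀ φ : V →L[ℂ] ℂ, E.E (fun s => φ (F s)) = φ v) → ∀ ε : ℝ, 0 < ε →
    ∃ (n : ℕ) (t : Fin n → ℝ) (s : Fin n → S), (∀ i, 0 ≤ t i) ∧ ∑ i, t i = 1 ∧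
      ‖∑ i, (t i : ℂ) • F (s i) - v‖ ≤ ε

/-! ### Forms -/

/-- Basic facts on `CB w`. -/
def S_cb : Prop :=
  ∀ (B : Type) [CStarAlgebra B] [PartialOrder B] [StarOrderedRing B]
    (K : Type) [NormedAddCommGroup K] [InnerProductSpace ℂ K] [CompleteSpace K]
    (w : B →ₗ[ℂ] (K →L[ℂ] K)), IsHom w → ∀ γ : ℝ, 0 ≤ γ → (∀ b, ‖w b‖ ≤ γ * ‖b‖) →
    IsCompact (CB w) ∧ Convex ℝ (CB w) ∧ (CB w).Nonempty ∧
    (∀ q ∈ CB w, IsForm q (6 * γ ^ 2)) ∧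
    (∀ q ∈ CB w, ∀ v : unitary B, act w (v : B) q ∈ CB w) ∧
    (∀ (M : ℝ) (ξ : K), 0 ≤ M → (∀ b, ‖w b ξ‖ ≤ M * ‖b‖) → ∀ q ∈ CB w,
      (q ξ ξ).re ≤ 6 * M ^ 2)

/-- Closed convex invariant sets of forms are closed under means. -/
def S_clos : Prop :=
  ∀ (B : Type) [CStarAlgebra B] [PartialOrder B] [StarOrderedRing B]
    (K : Type) [NormedAddCommGroup K] [InnerProductSpace ℂ K] [CompleteSpace K]
    (w : B →ₗ[ℂ] (K →L[ℂ] K)), IsHom w → ∀ γ : ℝ, 0 ≤ γ → (∀ b, ‖w b‖ ≤ γ * ‖b‖) →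
    ∀ X : Set (Form K), X ⊆ CB w → IsClosed X → Convex ℝ X →
    (∀ q ∈ X, ∀ v : unitary B, act w (v : B) q ∈ X) →
    ∀ (S : Type) (E : Mean S) (v : S → unitary B), ∀ q ∈ X,
      (fun ξ η => E.E (fun s => q (w (v s : B) ξ) (w (v s : B) η))) ∈ X

/-- Forms in `CB w` fixed by a Dixmier mean. -/
def S_dixform : Prop :=
  ∀ (B : Type) [CStarAlgebra B] [PartialOrder B] [StarOrderedRing B] (τ : B →ₗ[ℂ] ℂ),
    IsTracialState τ →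
    ∀ (K : Type) [NormedAddCommGroup K] [InnerProductSpace ℂ K] [CompleteSpace K]
    (w : B →ₗ[ℂ] (K →L[ℂ] K)), IsHom w → ∀ γ : ℝ, 0 ≤ γ → (∀ b, ‖w b‖ ≤ γ * ‖b‖) →
    ∀ (E : Mean (unitary B)), DixMean τ E → ∀ q ∈ CB w,
    (∀ ξ η, E.E (fun v => q (w (v : B) ξ) (w (v : B) η)) = q ξ η) → DixForm τ w q

/-- Collapse, abstract form. -/
def S_abs : Prop :=
  ∀ (E : Type) [AddCommGroup E] [Module ℝ E] [TopologicalSpace E] [IsTopologicalAddGroup E]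
    [ContinuousSMul ℝ E] [LocallyConvexSpace ℝ E] [T2Space E] (C : Set E),
    IsCompact C → Convex ℝ C → C.Nonempty →
    ∀ (M : Type) (ρ : M → E → E) (F : Filter M) [F.NeBot],
    (∀ m, Continuous (ρ m)) → (∀ m, ∀ x ∈ C, ρ m x ∈ C) →
    (∀ m x y (s t : ℝ), s + t = 1 → ρ m (s • x + t • y) = s • ρ m x + t • ρ m y) →
    (∀ v : M, ∃ f : M → M, Tendsto f F F ∧ ∀ m x, ρ (f m) x = ρ v (ρ m x)) →
    (∀ s ∈ F, ∃ s' ∈ F, s' ⊆ s ∧ ∀ m ∈ s', ∀ m' ∈ s', ∃ m'' ∈ s', ∀ x,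
      ρ m'' x = (1 / 2 : ℝ) • ρ m x + (1 / 2 : ℝ) • ρ m' x) →
    ∃ (X : Set E) (x₀ : E) (U : Ultrafilter M), X ⊆ C ∧ IsClosed X ∧ Convex ℝ X ∧ x₀ ∈ X ∧
      (∀ m, ∀ x ∈ X, ρ m x ∈ X) ∧ (U : Filter M) ≤ F ∧
      ∀ x ∈ X, Tendsto (fun m => ρ m x) (U : Filter M) (𝓝 x₀)

/-- Collapse of forms. -/
def S_collapse : Prop :=
  ∀ (B : Type) [CStarAlgebra B] [PartialOrder B] [StarOrderedRing B] (τ : B →ₗ[ℂ] ℂ),
    IsTracialState τ → HasDixmier τ → HasOrthA τ →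
    ∀ (K : Type) [NormedAddCommGroup K] [InnerProductSpace ℂ K] [CompleteSpace K]
    (w : B →ₗ[ℂ] (K →L[ℂ] K)), IsHom w → ∀ γ : ℝ, 0 ≤ γ → (∀ b, ‖w b‖ ≤ γ * ‖b‖) →
    ∀ (Γ : Type) [Fintype Γ] [Nonempty Γ] (g : Γ → unitary B), IsGrp g →
    ∃ (X : Set (Form K)) (q₀ : Form K) (E : Mean (unitary B)), X ⊆ CB w ∧ IsClosed X ∧
      Convex ℝ X ∧ q₀ ∈ X ∧ (∀ q ∈ X, ∀ v : unitary B, act w (v : B) q ∈ X) ∧
      DixMean τ E ∧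
      (∀ q ∈ X, ∀ ξ η, E.E (fun v => q (w (v : B) ξ) (w (v : B) η)) = q₀ ξ η) ∧
      ∀ i, act w (g i : B) q₀ = q₀

/-! ### The structure of forms that are constant on unitaries -/

/-- Bounded positive sesquilinear forms on an algebra (linear in the second variable). -/
structure IsFormB {B : Type} [CStarAlgebra B] (f : B → B → ℂ) (C : ℝ) : Prop where
  add : ∀ x y z, f x (y + z) = f x y + f x z
  smul : ∀ (c : ℂ) x y, f x (c • y) = c * f x y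
  herm : ∀ x y, f y x = conj (f x y)
  pos : ∀ x, 0 ≤ (f x x).re
  bd : ∀ x y, ‖f x y‖ ≤ C * ‖x‖ * ‖y‖

/-- The cocycles of a form that is constant on the unitary `2 × 2` matrices. -/
def S_isoAlg : Prop :=
  ∀ (B : Type) [CStarAlgebra B] [PartialOrder B] [StarOrderedRing B] (f : B → B → ℂ) (C : ℝ),
    IsFormB f C → ∀ n : ℂ,
    (∀ V ∈ unitary (CStarMatrix (Fin 2) (Fin 2) B), ∑ i, ∑ j, f (V i j) (V i j) = 2 * n) →
    (∀ v ∈ unitary B, f v v = n) ∧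
    ∃ lam mu : unitary B → (B →L[ℂ] ℂ), (∀ a, ‖lam a‖ ≤ 2 * C) ∧ (∀ a, ‖mu a‖ ≤ 2 * C) ∧
      (∀ (a : unitary B) (y y' : B),
        f ((a : B) * y) ((a : B) * y') = f y y' + lam a (y' * star y)) ∧
      (∀ (c : unitary B) (y y' : B),
        f (y * (c : B)) (y' * (c : B)) = f y y' + mu c (star y * y'))

/-- Averaged forms are dominated by the trace. -/
def S_isoGT : Prop :=
  ∀ (B : Type) [CStarAlgebra B] [PartialOrder B] [StarOrderedRing B] (τ : B →ₗ[ℂ] ℂ),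
    IsTracialState τ → ∀ (E : Mean (unitary B)), DixMean τ E →
    ∀ (f : B → B → ℂ) (C : ℝ), IsFormB f C → ∀ y : B,
      (E.E (fun h => E.E (fun r => f ((h : B) * y * (r : B)) ((h : B) * y * (r : B))))).re ≤
        6 * C * (τ (star y * y)).re

/-- Bounded cocycles with mean zero vanish. -/
def S_doubling : Prop :=
  ∀ (B : Type) [CStarAlgebra B] [PartialOrder B] [StarOrderedRing B] (τ : B →ₗ[ℂ] ℂ),
    IsTracialState τ → ∀ (E : Mean (unitary B)),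
    (∀ (φ : B →L[ℂ] ℂ) (y : B),
      E.E (fun v => φ (star (v : B) * y * (v : B))) = τ y * φ 1) →
    (∀ (φ : B →L[ℂ] ℂ) (y : B),
      E.E (fun v => φ ((v : B) * y * star (v : B))) = τ y * φ 1) →
    ∀ (lam : unitary B → (B →L[ℂ] ℂ)) (M C : ℝ), (∀ a, ‖lam a‖ ≤ C) →
    (∀ a z, ‖lam a z‖ ≤ M * √((τ (star z * z)).re)) →
    (∀ a, lam a 1 = 0) →
    (∀ (a b : unitary B) (z : B), lam (a * b) z = lam b z + lam a ((b : B) * z * star (b : B))) →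
    (∀ z, E.E (fun h => lam h z) = 0) → ∀ a z, lam a z = 0

/-- The structure theorem. -/
def S_isoN : Prop :=
  ∀ (B : Type) [CStarAlgebra B] [PartialOrder B] [StarOrderedRing B] (τ : B →ₗ[ℂ] ℂ),
    IsTracialState τ → ∀ (E : Mean (unitary B)), DixMean τ E →
    ∀ (f : B → B → ℂ) (C : ℝ), IsFormB f C → ∀ n : ℂ,
    (∀ V ∈ unitary (CStarMatrix (Fin 2) (Fin 2) B), ∑ i, ∑ j, f (V i j) (V i j) = 2 * n) →
    ∃ ρ ρ' : B →L[ℂ] ℂ, ‖ρ‖ ≤ 4 * C ∧ ‖ρ'‖ ≤ 4 * C ∧ ρ 1 + ρ' 1 = n ∧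
      ∀ y y', f y y' = ρ (star y * y') + ρ' (y' * star y)

/-- Scalar `2 × 2` matrices generating the signed permutations. -/
def mD (N : Type) [CStarAlgebra N] : CStarMatrix (Fin 2) (Fin 2) N :=
  tens !![1, 0; 0, -1] 1

/-- Scalar `2 × 2` matrices generating the signed permutations. -/
def mP (N : Type) [CStarAlgebra N] : CStarMatrix (Fin 2) (Fin 2) N :=
  tens !![0, 1; 1, 0] 1

/-- The structure theorem for `2 × 2` matrices. -/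
def S_isoM : Prop :=
  ∀ (N : Type) [CStarAlgebra N] [PartialOrder N] [StarOrderedRing N] (τ : N →ₗ[ℂ] ℂ),
    IsTracialState τ → ∀ (E : Mean (unitary N)), DixMean τ E →
    ∀ (f : CStarMatrix (Fin 2) (Fin 2) N → CStarMatrix (Fin 2) (Fin 2) N → ℂ) (C : ℝ),
    IsFormB f C → ∀ n : ℂ,
    (∀ V ∈ unitary (CStarMatrix (Fin 2) (Fin 2) N), f V V = n) →
    (∀ y y', f (mD N * y) (mD N * y') = f y y' ∧ f (mP N * y) (mP N * y') = f y y' ∧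
      f (y * mD N) (y' * mD N) = f y y' ∧ f (y * mP N) (y' * mP N) = f y y') →
    ∃ ρ ρ' : CStarMatrix (Fin 2) (Fin 2) N →L[ℂ] ℂ, ‖ρ‖ ≤ 4 * C ∧ ‖ρ'‖ ≤ 4 * C ∧
      ρ 1 + ρ' 1 = n ∧ ∀ y y', f y y' = ρ (star y * y') + ρ' (y' * star y)

/-- Matrices over an algebra with a Dixmier trace. -/
def S_M2 : Prop :=
  ∀ (N : Type) [CStarAlgebra N] [PartialOrder N] [StarOrderedRing N] (τ : N →ₗ[ℂ] ℂ),
    IsTracialState τ → HasDixmier τ → HasOrthA τ →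
    IsTracialState (ntr τ (Fin 2)) ∧ HasDixmier (ntr τ (Fin 2)) ∧ HasOrthA (ntr τ (Fin 2))

/-- Existence of Dixmier means. -/
def S_dixmean : Prop :=
  ∀ (B : Type) [CStarAlgebra B] [PartialOrder B] [StarOrderedRing B] (τ : B →ₗ[ℂ] ℂ),
    IsTracialState τ → HasDixmier τ → HasOrthA τ → ∃ E : Mean (unitary B), DixMean τ E

/-- Both sides. -/
def S_sides : Prop :=
  ∀ (N : Type) [CStarAlgebra N] [PartialOrder N] [StarOrderedRing N] (τ : N →ₗ[ℂ] ℂ),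
    IsTracialState τ → HasDixmier τ → HasOrthA τ →
    ∀ (K : Type) [NormedAddCommGroup K] [InnerProductSpace ℂ K] [CompleteSpace K]
    (w : CStarMatrix (Fin 2) (Fin 2) N →ₗ[ℂ] (K →L[ℂ] K)), IsHom w →
    ∀ γ : ℝ, 0 ≤ γ → (∀ b, ‖w b‖ ≤ γ * ‖b‖) →
    ∃ (q₁ q₂ : Form K) (E₁ E₂ Ec : Mean (unitary (CStarMatrix (Fin 2) (Fin 2) N))),
      q₁ ∈ CB (vmap w) ∧ q₂ ∈ CB w ∧
      DixForm (ntr τ (Fin 2)) (vmap w) q₁ ∧ DixForm (ntr τ (Fin 2)) w q₂ ∧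
      Side (ntr τ (Fin 2)) (vmap w) q₁ E₁ E₂ Ec ∧
      Side (ntr τ (Fin 2)) w q₂ E₂ E₁ (Ec.map star) ∧
      act (vmap w) (mD N) q₁ = q₁ ∧ act (vmap w) (mP N) q₁ = q₁ ∧
      act w (mD N) q₂ = q₂ ∧ act w (mP N) q₂ = q₂

/-! ### Random words -/

/-- From a side to a pair of rotations, in both orders. -/
def S_pair : Prop :=
  ∀ (B : Type) [CStarAlgebra B] (τ : B →ₗ[ℂ] ℂ)
    (K : Type) [NormedAddCommGroup K] [InnerProductSpace ℂ K] [CompleteSpace K]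
    (w : B →ₗ[ℂ] (K →L[ℂ] K)) (γ : ℝ), (∀ b, ‖w b‖ ≤ γ * ‖b‖) → ∀ (q : Form K)
    (E E' Ec : Mean (unitary B)), Side τ w q E E' Ec →
    RotPair τ w q (E.prod E') Ec ∧ RotPair τ w q ((E'.prod E).map Prod.swap) Ec

/-- The laws of the random words. -/
def S_words : Prop :=
  ∀ (B : Type) [CStarAlgebra B] [PartialOrder B] [StarOrderedRing B] (τ : B →ₗ[ℂ] ℂ),
    IsTracialState τ →
    ∀ (K : Type) [NormedAddCommGroup K] [InnerProductSpace ℂ K] [CompleteSpace K]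
    (w : B →ₗ[ℂ] (K →L[ℂ] K)), IsHom w → ∀ γ : ℝ, 0 ≤ γ → (∀ b, ‖w b‖ ≤ γ * ‖b‖) →
    ∀ (q : Form K) (P : Mean (unitary B × unitary B)) (Ec : Mean (unitary B)),
    RotPair τ w q P Ec → ∀ n : ℕ,
    WordLaw τ w q (itMean (Mv P Ec) (vars n n) (fun _ => 1)) (fun ω => preH ω n n)
      (fun ω c => Gl ω c) n

/-- The laws of the random words, for both sides. -/
def S_joint : Prop :=
  ∀ (B : Type) [CStarAlgebra B] [PartialOrder B] [StarOrderedRing B] (τ : B →ₗ[ℂ] ℂ),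
    IsTracialState τ →
    ∀ (K : Type) [NormedAddCommGroup K] [InnerProductSpace ℂ K] [CompleteSpace K]
    (w : B →ₗ[ℂ] (K →L[ℂ] K)), IsHom w → ∀ γ : ℝ, 0 ≤ γ → (∀ b, ‖w b‖ ≤ γ * ‖b‖) →
    ∀ (q₁ q₂ : Form K) (E₁ E₂ Ec : Mean (unitary B)),
    Side τ (vmap w) q₁ E₁ E₂ Ec → Side τ w q₂ E₂ E₁ (Ec.map star) → ∀ n : ℕ,
    ∃ (Ω : Type) (E : Mean Ω) (p₁ p₂ : Ω → unitary B) (G : Ω → ℕ → unitary B),
      WordLaw τ (vmap w) q₁ E p₁ G n ∧ WordLaw τ w q₂ E p₂ (fun ω c => star (G ω c)) n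

/-! ### Inequalities for averaged forms -/

/-- Column inequality. -/
def S_col : Prop :=
  ∀ (B : Type) [CStarAlgebra B] [PartialOrder B] [StarOrderedRing B] (τ : B →ₗ[ℂ] ℂ),
    IsTracialState τ →
    ∀ (K : Type) [NormedAddCommGroup K] [InnerProductSpace ℂ K] [CompleteSpace K]
    (w : B →ₗ[ℂ] (K →L[ℂ] K)), IsHom w → ∀ (q : Form K) (C : ℝ), IsForm q C →
    DixForm τ w q → ∀ (ι : Type) [Fintype ι] [DecidableEq ι] [Nonempty ι] (γ : ℝ), 0 ≤ γ →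
    (∀ Y : CStarMatrix ι ι B, ‖amp w ι Y‖ ≤ γ * ‖Y‖) →
    ∀ (κ : Type) [Fintype κ] (y : κ → CStarMatrix ι ι B) (θ : HH ι K),
      ∑ k, (qa q (amp w ι (y k) θ) (amp w ι (y k) θ)).re ≤
        6 * γ ^ 2 * ‖∑ k, star (y k) * y k‖ * ‖θ‖ ^ 2

/-- Row inequality. -/
def S_row : Prop :=
  ∀ (B : Type) [CStarAlgebra B] [PartialOrder B] [StarOrderedRing B] (τ : B →ₗ[ℂ] ℂ),
    IsTracialState τ →
    ∀ (K : Type) [NormedAddCommGroup K] [InnerProductSpace ℂ K] [CompleteSpace K]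
    (w : B →ₗ[ℂ] (K →L[ℂ] K)), IsHom w → ∀ (q : Form K) (C : ℝ), IsForm q C →
    DixForm τ w q → ∀ (ι : Type) [Fintype ι] [DecidableEq ι] [Nonempty ι] (γ : ℝ), 0 ≤ γ →
    (∀ Y : CStarMatrix ι ι B, ‖amp w ι Y‖ ≤ γ * ‖Y‖) →
    ∀ (κ : Type) [Fintype κ] (y : κ → CStarMatrix ι ι B) (ξ : κ → HH ι K),
      ‖∑ k, amp w ι (y k) (ξ k)‖ ^ 2 ≤
        6 * γ ^ 2 * ‖∑ k, y k * star (y k)‖ * ∑ k, (qa q (ξ k) (ξ k)).re

/-- The bilinear block inequality. -/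
def S_mid : Prop :=
  ∀ (B : Type) [CStarAlgebra B] [PartialOrder B] [StarOrderedRing B] (τ : B →ₗ[ℂ] ℂ),
    IsTracialState τ →
    ∀ (K : Type) [NormedAddCommGroup K] [InnerProductSpace ℂ K] [CompleteSpace K]
    (w : B →ₗ[ℂ] (K →L[ℂ] K)), IsHom w → ∀ (q₁ q₂ : Form K) (C : ℝ), IsForm q₁ C →
    IsForm q₂ C → DixForm τ (vmap w) q₁ → DixForm τ w q₂ →
    ∀ (m L : ℕ), 0 < m → 0 < L → ∀ γ : ℝ, 0 ≤ γ → LvlBd w L γ →
    ∀ (X : CStarMatrix (Fin (m * L)) (Fin (m * L)) B) (ξ η : HH (Fin (m * L)) K),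
      ‖⟪amp w (Fin (m * L)) X ξ, η⟫_ℂ‖ ^ 2 ≤
        18 * γ ^ 2 * (‖X‖ ^ 2 + 1 / (L : ℝ) * (tr τ (Fin (m * L)) (star X * X)).re) *
          (qa q₂ ξ ξ).re * (qa q₁ η η).re

/-- The deterministic inequality, bilinear form. -/
def S_det : Prop :=
  ∀ (B : Type) [CStarAlgebra B] [PartialOrder B] [StarOrderedRing B]
    (K : Type) [NormedAddCommGroup K] [InnerProductSpace ℂ K] [CompleteSpace K]
    (w : B →ₗ[ℂ] (K →L[ℂ] K)), IsHom w → ∀ (Q₁ Q₂ : Form K) (C : ℝ), IsForm Q₁ C →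
    IsForm Q₂ C → ∀ (t : B →ₗ[ℂ] ℂ), (∀ b, t (star b) = conj (t b)) → 0 ≤ (t 1).re →
    ∀ (a b : ℝ), 0 ≤ a → 0 ≤ b →
    (∀ (X : B) (ξ η : K), ‖⟪w X ξ, η⟫_ℂ‖ ^ 2 ≤
      (a * ‖X‖ ^ 2 + b * (t (star X * X)).re) * (Q₂ ξ ξ).re * (Q₁ η η).re) →
    ∀ U : B, U ∈ unitary B → ∀ (θ η : K) (Q : ℕ), 0 < Q →
      ((Q : ℝ) ^ 2 * ‖⟪θ, η⟫_ℂ‖) ^ 2 ≤
      (4 * Q ^ 2 * a + b * (2 * Q * (t 1).re + 4 * Q * ∑ k ∈ range (2 * Q), ‖t (U ^ (k + 1))‖)) *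
        (∑ k ∈ range Q, (Q₂ (w (star U ^ (k + 1)) θ) (w (star U ^ (k + 1)) θ)).re) *
        (∑ k ∈ range Q, (Q₁ (vmap w (U ^ k) η) (vmap w (U ^ k) η)).re)

/-! ### The random vectors -/

/-- The list of a sequence of letters. -/
def lst {B : Type} [CStarAlgebra B] {n k : ℕ} (X : CStarMatrix (Fin n) (Fin n) B)
    (σ : Fin (k + 1) → Fin n) : List (ℕ × B) :=
  List.ofFn fun t : Fin (k + 1) =>
    ((σ t : ℕ), if h : (t : ℕ) + 1 < k + 1 then X (σ t) (σ ⟨(t : ℕ) + 1, h⟩) else 1)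

/-- The weight of a sequence of letters. -/
def pwt {B : Type} [CStarAlgebra B] (τ : B →ₗ[ℂ] ℂ) {n k : ℕ}
    (X : CStarMatrix (Fin n) (Fin n) B) (σ : Fin (k + 1) → Fin n) : ℝ :=
  pword (pmat τ X) (σ 0) (List.ofFn fun t : Fin k => σ t.succ)

/-- Words of sequences of letters. -/
def S_lst : Prop :=
  ∀ (B : Type) [CStarAlgebra B] [PartialOrder B] [StarOrderedRing B] (τ : B →ₗ[ℂ] ℂ),
    IsTracialState τ → ∀ (n k : ℕ) (X : CStarMatrix (Fin n) (Fin n) B),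
    (∀ (g : ℕ → unitary B) (σ : Fin (k + 1) → Fin n),
      Wd g (lst X σ) = sword X (fun c : Fin n => g c) σ) ∧
    (∀ (σ : Fin (k + 1) → Fin n), (lst X σ).map Prod.fst = List.ofFn fun t => (σ t : ℕ)) ∧
    (∀ (Φ : B → B → ℂ) (a a' : B) (σ σ' : Fin (k + 1) → Fin n),
      Rv τ Φ a a' (lst X σ) (lst X σ') =
        if σ = σ' then τ (star a * a') * (pwt τ X σ : ℂ) * Φ 1 1 else 0)

/-- The diagonal matrix with all diagonal entries `p`. -/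
def dgu {B : Type} [CStarAlgebra B] {ι : Type} [Fintype ι] [DecidableEq ι] (p : unitary B) :
    CStarMatrix ι ι B := gm (fun _ => p)

/-- The multilinear part of the random vectors. -/
def S_upA : Prop :=
  ∀ (B : Type) [CStarAlgebra B] [PartialOrder B] [StarOrderedRing B] (τ : B →ₗ[ℂ] ℂ),
    IsTracialState τ →
    ∀ (K : Type) [NormedAddCommGroup K] [InnerProductSpace ℂ K] [CompleteSpace K]
    (w : B →ₗ[ℂ] (K →L[ℂ] K)), IsHom w → ∀ (q : Form K) (C : ℝ), IsForm q C →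
    ∀ (Ω : Type) (E : Mean Ω) (p : Ω → unitary B) (G : Ω → ℕ → unitary B) (n : ℕ),
    WordLaw τ w q E p G n →
    ∀ (X Y : CStarMatrix (Fin n) (Fin n) B), Y ∈ unitary (CStarMatrix (Fin n) (Fin n) B) →
    ∀ (R k : ℕ) [NeZero R], k + 1 < R → ∀ M : Finset (Fin n), M.card = k + 1 →
    ∀ θ : HH (Fin n) K,
      E.E (fun ω => qa q
        (amp w (Fin n) (dgu (p ω) * (Y * Yf X (fun c : Fin n => G ω c) R k (ind R M))) θ)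
        (amp w (Fin n) (dgu (p ω) * (Y * Yf X (fun c : Fin n => G ω c) R k (ind R M))) θ)) =
      ∑ σ ∈ univ.filter (fun σ : Fin (k + 1) → Fin n => Function.Injective σ ∧
        univ.image σ = M), (pwt τ X σ : ℂ) * q (θ (σ (Fin.last k))) (θ (σ (Fin.last k)))

/-- The Gram matrices of the multilinear part. -/
def S_upB : Prop :=
  ∀ (B : Type) [CStarAlgebra B] [PartialOrder B] [StarOrderedRing B] (τ : B →ₗ[ℂ] ℂ),
    IsTracialState τ →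
    ∀ (K : Type) [NormedAddCommGroup K] [InnerProductSpace ℂ K] [CompleteSpace K]
    (w : B →ₗ[ℂ] (K →L[ℂ] K)) (q : Form K)
    (Ω : Type) (E : Mean Ω) (p : Ω → unitary B) (G : Ω → ℕ → unitary B) (n : ℕ),
    WordLaw τ w q E p G n →
    ∀ (X : CStarMatrix (Fin n) (Fin n) B),
    ∀ (R k : ℕ) [NeZero R], k + 1 < R → ∀ M : Finset (Fin n), M.card = k + 1 →
    ∀ φ : CStarMatrix (Fin n) (Fin n) B →L[ℂ] ℂ,
      E.E (fun ω => φ (star (Yf X (fun c : Fin n => G ω c) R k (ind R M)) *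
        Yf X (fun c : Fin n => G ω c) R k (ind R M))) =
      φ (dgc B (fun j => ∑ σ ∈ univ.filter (fun σ : Fin (k + 1) → Fin n =>
        Function.Injective σ ∧ univ.image σ = M ∧ σ (Fin.last k) = j), pwt τ X σ))

/-- Column inequality for means. -/
def S_upC : Prop :=
  ∀ (B : Type) [CStarAlgebra B] [PartialOrder B] [StarOrderedRing B]
    (K : Type) [NormedAddCommGroup K] [InnerProductSpace ℂ K] [CompleteSpace K]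
    (w : B →ₗ[ℂ] (K →L[ℂ] K)), IsHom w → ∀ (q : Form K) (C : ℝ), IsForm q C →
    ∀ (n : ℕ) (Γ : ℝ), 0 ≤ Γ →
    (∀ (κ : Type) [Fintype κ] (y : κ → CStarMatrix (Fin n) (Fin n) B) (θ : HH (Fin n) K),
      ∑ k, (qa q (amp w (Fin n) (y k) θ) (amp w (Fin n) (y k) θ)).re ≤
        Γ * ‖∑ k, star (y k) * y k‖ * ‖θ‖ ^ 2) →
    ∀ (Ω : Type) (E : Mean Ω) (κ : Type) [Fintype κ]
    (Z : Ω → κ → CStarMatrix (Fin n) (Fin n) B) (C' : ℝ), (∀ ω k, ‖Z ω k‖ ≤ C') →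
    ∀ (p : Ω → unitary B) (D : CStarMatrix (Fin n) (Fin n) B),
    (∀ φ : CStarMatrix (Fin n) (Fin n) B →L[ℂ] ℂ,
      E.E (fun ω => φ (∑ k, star (Z ω k) * Z ω k)) = φ D) → ∀ θ : HH (Fin n) K,
    (E.E (fun ω => ∑ k, qa q (amp w (Fin n) (dgu (p ω) * Z ω k) θ)
      (amp w (Fin n) (dgu (p ω) * Z ω k) θ))).re ≤ Γ * ‖D‖ * ‖θ‖ ^ 2

/-- The bound for the random vectors. -/
def S_up : Prop :=
  ∀ (B : Type) [CStarAlgebra B] [PartialOrder B] [StarOrderedRing B] (τ : B →ₗ[ℂ] ℂ),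
    IsTracialState τ →
    ∀ (K : Type) [NormedAddCommGroup K] [InnerProductSpace ℂ K] [CompleteSpace K]
    (w : B →ₗ[ℂ] (K →L[ℂ] K)), IsHom w → ∀ (q : Form K) (C : ℝ), IsForm q C →
    ∀ (n : ℕ) (Γ : ℝ), 0 ≤ Γ →
    (∀ (κ : Type) [Fintype κ] (y : κ → CStarMatrix (Fin n) (Fin n) B) (θ : HH (Fin n) K),
      ∑ k, (qa q (amp w (Fin n) (y k) θ) (amp w (Fin n) (y k) θ)).re ≤
        Γ * ‖∑ k, star (y k) * y k‖ * ‖θ‖ ^ 2) →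
    ∀ (Ω : Type) (E : Mean Ω) (p : Ω → unitary B) (G : Ω → ℕ → unitary B),
    WordLaw τ w q E p G n →
    ∀ (X Y : CStarMatrix (Fin n) (Fin n) B), X ∈ unitary (CStarMatrix (Fin n) (Fin n) B) →
    Y ∈ unitary (CStarMatrix (Fin n) (Fin n) B) →
    ∀ δ : ℝ, (∀ i j, pmat τ X i j ≤ δ) → ∀ (R k : ℕ) [NeZero R], k + 1 < R →
    ∀ θ : HH (Fin n) K,
      (E.E (fun ω => ∑ ph : Fin n → ZMod R, qa q
        (amp w (Fin n) (dgu (p ω) * (Y * Tw X (fun c : Fin n => G ω c) ph k)) θ)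
        (amp w (Fin n) (dgu (p ω) * (Y * Tw X (fun c : Fin n => G ω c) ph k)) θ))).re ≤
      (Fintype.card (Fin n → ZMod R) : ℝ) *
        ((qa q θ θ).re + Γ * ((k + 1) ^ 2 * δ) * ‖θ‖ ^ 2)

/-- The bound for flat unitaries. -/
def S_unit3 : Prop :=
  ∀ (B : Type) [CStarAlgebra B] [PartialOrder B] [StarOrderedRing B] (τ : B →ₗ[ℂ] ℂ),
    IsTracialState τ →
    ∀ (K : Type) [NormedAddCommGroup K] [InnerProductSpace ℂ K] [CompleteSpace K]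
    (w : B →ₗ[ℂ] (K →L[ℂ] K)), IsHom w → ∀ (q₁ q₂ : Form K) (C : ℝ), IsForm q₁ C →
    IsForm q₂ C → DixForm τ (vmap w) q₁ → DixForm τ w q₂ →
    ∀ γ : ℝ, 1 ≤ γ → (∀ b, ‖w b‖ ≤ γ * ‖b‖) →
    ∀ L m : ℕ, 0 < m → 25920 * (m : ℝ) ^ 11 * γ ^ 6 ≤ L → LvlBd w L γ →
    ∀ (Ω : Type) (E : Mean Ω) (p₁ p₂ : Ω → unitary B) (G : Ω → ℕ → unitary B),
    WordLaw τ (vmap w) q₁ E p₁ G (m * L) →
    WordLaw τ w q₂ E p₂ (fun ω c => star (G ω c)) (m * L) →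
    ∀ x : CStarMatrix (Fin (m * L)) (Fin (m * L)) B,
      x ∈ unitary (CStarMatrix (Fin (m * L)) (Fin (m * L)) B) →
      (∀ i j, pmat τ x i j ≤ 1 / (12 * m ^ 4 * γ ^ 2)) → ∀ ζ η : HH (Fin (m * L)) K,
      ‖⟪amp w (Fin (m * L)) x ζ, η⟫_ℂ‖ ^ 2 ≤ 2500 * γ ^ 2 *
        ((qa q₂ ζ ζ).re + ‖ζ‖ ^ 2) * ((qa q₁ η η).re + ‖η‖ ^ 2)

/-- The bound for all matrices. -/
def S_all3 : Prop :=
  ∀ (N : Type) [CStarAlgebra N] [PartialOrder N] [StarOrderedRing N] (τ : N →ₗ[ℂ] ℂ),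
    IsTracialState τ → HasDixmier τ → HasOrthA τ →
    ∀ (K : Type) [NormedAddCommGroup K] [InnerProductSpace ℂ K] [CompleteSpace K]
    (w : CStarMatrix (Fin 2) (Fin 2) N →ₗ[ℂ] (K →L[ℂ] K)), IsHom w →
    ∀ γ : ℝ, 1 ≤ γ → (∀ b, ‖w b‖ ≤ γ * ‖b‖) →
    ∀ L m : ℕ, 0 < m → 25920 * (m : ℝ) ^ 11 * γ ^ 6 ≤ L → LvlBd w L γ →
    ∃ q₁ ∈ CB (vmap w), ∃ q₂ ∈ CB w,
      act (vmap w) (mD N) q₁ = q₁ ∧ act (vmap w) (mP N) q₁ = q₁ ∧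
      act w (mD N) q₂ = q₂ ∧ act w (mP N) q₂ = q₂ ∧
      ∀ (X : CStarMatrix (Fin (m * L)) (Fin (m * L)) (CStarMatrix (Fin 2) (Fin 2) N))
        (ζ η : HH (Fin (m * L)) K),
      ‖⟪amp w (Fin (m * L)) X ζ, η⟫_ℂ‖ ^ 2 ≤ 10000 * γ ^ 2 * ‖X‖ ^ 2 *
        ((qa q₂ ζ ζ).re + ‖ζ‖ ^ 2) * ((qa q₁ η η).re + ‖η‖ ^ 2)

/-- From nested matrices to matrices. -/
def S_unnest : Prop :=
  ∀ (N : Type) [CStarAlgebra N] [PartialOrder N] [StarOrderedRing N]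
    (K : Type) [NormedAddCommGroup K] [InnerProductSpace ℂ K] [CompleteSpace K]
    (w : N →ₗ[ℂ] (K →L[ℂ] K)), IsHom w → ∀ γ : ℝ, 0 ≤ γ →
    (∀ Y, ‖amp w (Fin 2) Y‖ ≤ γ * ‖Y‖) →
    ∀ q₁ ∈ CB (vmap (amp w (Fin 2))), ∀ q₂ ∈ CB (amp w (Fin 2)),
      act (vmap (amp w (Fin 2))) (mD N) q₁ = q₁ → act (vmap (amp w (Fin 2))) (mP N) q₁ = q₁ →
      act (amp w (Fin 2)) (mD N) q₂ = q₂ → act (amp w (Fin 2)) (mP N) q₂ = q₂ →
    ∀ (k : ℕ) (κ : ℝ), 0 ≤ κ →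
    (∀ (X : CStarMatrix (Fin k) (Fin k) (CStarMatrix (Fin 2) (Fin 2) N))
        (ζ η : HH (Fin k) (HH (Fin 2) K)),
      ‖⟪amp (amp w (Fin 2)) (Fin k) X ζ, η⟫_ℂ‖ ^ 2 ≤ κ * ‖X‖ ^ 2 *
        ((qa q₂ ζ ζ).re + ‖ζ‖ ^ 2) * ((qa q₁ η η).re + ‖η‖ ^ 2)) →
    ∃ r₁ ∈ CB (vmap w), ∃ r₂ ∈ CB w,
      ∀ (X : CStarMatrix (Fin (k * 2)) (Fin (k * 2)) N) (ζ η : HH (Fin (k * 2)) K),
      ‖⟪amp w (Fin (k * 2)) X ζ, η⟫_ℂ‖ ^ 2 ≤ κ * ‖X‖ ^ 2 *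
        ((qa r₂ ζ ζ).re + ‖ζ‖ ^ 2) * ((qa r₁ η η).re + ‖η‖ ^ 2)

/-- The main inequality. -/
def S_CT : Prop :=
  ∀ (N : Type) [CStarAlgebra N] [PartialOrder N] [StarOrderedRing N] (τ : N →ₗ[ℂ] ℂ),
    IsTracialState τ → HasDixmier τ → HasOrthA τ →
    ∀ (K : Type) [NormedAddCommGroup K] [InnerProductSpace ℂ K] [CompleteSpace K]
    (w : N →ₗ[ℂ] (K →L[ℂ] K)), IsHom w → ∀ γ : ℝ, 1 ≤ γ →
    ∀ L m : ℕ, 0 < m → 25920 * (m : ℝ) ^ 11 * γ ^ 6 ≤ L → LvlBd w (L * 2) γ →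
    ∃ r₁ ∈ CB (vmap w), ∃ r₂ ∈ CB w,
      ∀ (X : CStarMatrix (Fin (m * L * 2)) (Fin (m * L * 2)) N)
        (ζ η : HH (Fin (m * L * 2)) K),
      ‖⟪amp w (Fin (m * L * 2)) X ζ, η⟫_ℂ‖ ^ 2 ≤ 10000 * γ ^ 2 * ‖X‖ ^ 2 *
        ((qa r₂ ζ ζ).re + ‖ζ‖ ^ 2) * ((qa r₁ η η).re + ‖η‖ ^ 2)

end Y268.D3
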