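import Mathlib
import Pool.Agent.Y268.D3.Stm
import Pool.Agent.Y784.KS.GD
import Pool.Agent.Y784.KS.Hfib2

/-!
Statements of the pieces of the degree three bound: from algebras with a Dixmier trace to von
Neumann algebras.
-/

open scoped ComplexOrder InnerProductSpace ComplexConjugate Topology
open Finset Filter

noncomputable section

namespace Y268.D3

open H759R2.Kad H711R2.KG H770R2.Kad H770R2.Kad.AULT H770R2.Kad.Hfib Pool.Agent.Y784.KS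

/-- The bilinear bound: the matrix coefficient of `ζ` and `η` is controlled by the norms of the
maps `x ↦ u x (ζ i)` and `x ↦ vmap u x (η i)`. -/
def Bi {B : Type} [CStarAlgebra B] [PartialOrder B] [StarOrderedRing B]
    {H : Type} [NormedAddCommGroup H] [InnerProductSpace ℂ H] [CompleteSpace H]
    (u : B →ₗ[ℂ] (H →L[ℂ] H)) (m : ℕ) (C : ℝ) : Prop :=
  ∀ (X : CStarMatrix (Fin m) (Fin m) B) (ζ η : HH (Fin m) H) (a b : Fin m → ℝ),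
    (∀ i, 0 ≤ a i) → (∀ i, 0 ≤ b i) → (∀ i x, ‖u x (ζ i)‖ ≤ a i * ‖x‖) →
    (∀ i x, ‖vmap u x (η i)‖ ≤ b i * ‖x‖) →
    ‖⟪amp u (Fin m) X ζ, η⟫_ℂ‖ ^ 2 ≤ C ^ 2 * ‖X‖ ^ 2 * (∑ i, a i ^ 2) * ∑ i, b i ^ 2

/-- Similarity making the homomorphism preserve adjoints on matrix units. -/
def S_simbi : Prop :=
  ∀ (B : Type) [CStarAlgebra B] [PartialOrder B] [StarOrderedRing B] (n : ℕ) (z : B)
    (t : Fin n → B) (i0 : Fin n) (v : B), GDec z t i0 v →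
    ∀ (H : Type) [NormedAddCommGroup H] [InnerProductSpace ℂ H] [CompleteSpace H]
    (u : B →ₗ[ℂ] (H →L[ℂ] H)), IsHom u → ∀ c : ℝ, 0 ≤ c → (∀ b, ‖u b‖ ≤ c * ‖b‖) →
    ∃ u' : B →ₗ[ℂ] (H →L[ℂ] H), IsHom u' ∧ (∀ b, ‖u' b‖ ≤ c * ‖b‖) ∧
      (∀ i, star (u' (t i)) = u' (star (t i))) ∧ star (u' v) = u' (star v) ∧
      ∀ m C, 0 ≤ C → Bi u' m C → Bi u m C

/-- Fibre algebras with a tracial state which are not small. -/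
def S_fibbi : Prop :=
  ∀ (B : Type) [CStarAlgebra B] [PartialOrder B] [StarOrderedRing B], IsFib B →
    ∀ τ : B →ₗ[ℂ] ℂ, IsTracialState τ → (∀ K : ℕ, ¬ Small (1 : B) K) →
    ∀ (L m : ℕ) (t : Fin (L * 2) → B) (i0 : Fin (L * 2)) (v : B), GDec (1 : B) t i0 v →
    0 < m → ∀ c : ℝ, 1 ≤ c → 25920 * ((2 * m : ℕ) : ℝ) ^ 11 * c ^ 6 ≤ L →
    ∀ (H : Type) [NormedAddCommGroup H] [InnerProductSpace ℂ H] [CompleteSpace H]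
    (u : B →ₗ[ℂ] (H →L[ℂ] H)), IsHom u → (∀ b, ‖u b‖ ≤ c * ‖b‖) →
    (∀ i, star (u (t i)) = u (star (t i))) → star (u v) = u (star v) → Bi u m (1300 * c)

/-- Small fibre algebras. -/
def S_smallbi : Prop :=
  ∀ (B : Type) [CStarAlgebra B] [PartialOrder B] [StarOrderedRing B], IsFib B →
    ∀ K : ℕ, Small (1 : B) K →
    ∀ (H : Type) [NormedAddCommGroup H] [InnerProductSpace ℂ H] [CompleteSpace H]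
    (u : B →ₗ[ℂ] (H →L[ℂ] H)), IsHom u → ∀ c : ℝ, 0 ≤ c → (∀ b, ‖u b‖ ≤ c * ‖b‖) →
    ∀ m, Bi u m 1

/-- Algebras without tracial states. -/
def S_notracebi : Prop :=
  ∀ (B : Type) [CStarAlgebra B] [PartialOrder B] [StarOrderedRing B],
    (¬ ∃ τ : B →ₗ[ℂ] ℂ, IsTracialState τ) →
    ∀ (H : Type) [NormedAddCommGroup H] [InnerProductSpace ℂ H] [CompleteSpace H]
    (u : B →ₗ[ℂ] (H →L[ℂ] H)), IsHom u → ∀ c : ℝ, 0 ≤ c → (∀ b, ‖u b‖ ≤ c * ‖b‖) →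
    ∀ m, Bi u m (10 * c)

/-- Choice of the ultrafilter of central projections. -/
def S_cenA : Prop :=
  ∀ (A : Type) [CStarAlgebra A]
    (H : Type) [NormedAddCommGroup H] [InnerProductSpace ℂ H] [CompleteSpace H]
    (W : A →ₗ[ℂ] (H →L[ℂ] H)), IsHom W → ∀ c : ℝ, 0 ≤ c → (∀ a, ‖W a‖ ≤ c * ‖a‖) →
    ∀ (m : ℕ) (X : CStarMatrix (Fin m) (Fin m) A) (κ : ℝ), 0 ≤ κ →
    ∀ (ζ η : HH (Fin m) H) (a b : Fin m → ℝ), (∀ i, 0 ≤ a i) → (∀ i, 0 ≤ b i) →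
    (∀ i x, ‖W x (ζ i)‖ ≤ a i * ‖x‖) → (∀ i x, ‖vmap W x (η i)‖ ≤ b i * ‖x‖) →
    κ ^ 2 * (∑ i, a i ^ 2) * (∑ i, b i ^ 2) < ‖⟪amp W (Fin m) X ζ, η⟫_ℂ‖ ^ 2 →
    ∃ F : Set A, (∀ p ∈ F, CPg p) ∧ 1 ∈ F ∧ (∀ p ∈ F, ∀ q ∈ F, p * q ∈ F) ∧
      (∀ p, CPg p → p ∈ F ∨ 1 - p ∈ F) ∧ (0 : A) ∉ F ∧
      ∀ p ∈ F, ∃ (ζ η : HH (Fin m) H) (a b : Fin m → ℝ), (∀ i, 0 ≤ a i) ∧ (∀ i, 0 ≤ b i) ∧
        (∀ i x, ‖W x (ζ i)‖ ≤ a i * ‖x‖) ∧ (∀ i x, ‖vmap W x (η i)‖ ≤ b i * ‖x‖) ∧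
        (∀ i, W p (ζ i) = ζ i) ∧ (∀ i, star (W p) (η i) = η i) ∧
        ∑ i, a i ^ 2 ≤ 1 ∧ ∑ i, b i ^ 2 ≤ 1 ∧ κ ≤ ‖⟪amp W (Fin m) X ζ, η⟫_ℂ‖

/-- The fibre of a homomorphism. -/
def S_cenB : Prop :=
  ∀ (L : Type) [NormedAddCommGroup L] [InnerProductSpace ℂ L] [CompleteSpace L]
    (M : VonNeumannAlgebra L) (F : Set M.toStarSubalgebra), CUlt M F →
    ∀ (H : Type) [NormedAddCommGroup H] [InnerProductSpace ℂ H] [CompleteSpace H]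
    (W : M.toStarSubalgebra →ₗ[ℂ] (H →L[ℂ] H)), IsHom W → ∀ c : ℝ, 0 ≤ c →
    (∀ a, ‖W a‖ ≤ c * ‖a‖) →
    ∀ (m : ℕ) (X : CStarMatrix (Fin m) (Fin m) M.toStarSubalgebra) (κ : ℝ), 0 ≤ κ →
    (∀ p ∈ F, ∃ (ζ η : HH (Fin m) H) (a b : Fin m → ℝ), (∀ i, 0 ≤ a i) ∧ (∀ i, 0 ≤ b i) ∧
        (∀ i x, ‖W x (ζ i)‖ ≤ a i * ‖x‖) ∧ (∀ i x, ‖vmap W x (η i)‖ ≤ b i * ‖x‖) ∧
        (∀ i, W p (ζ i) = ζ i) ∧ (∀ i, star (W p) (η i) = η i) ∧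
        ∑ i, a i ^ 2 ≤ 1 ∧ ∑ i, b i ^ 2 ≤ 1 ∧ κ ≤ ‖⟪amp W (Fin m) X ζ, η⟫_ℂ‖) →
    ∃ (K : Type) (_ : NormedAddCommGroup K) (_ : InnerProductSpace ℂ K) (_ : CompleteSpace K)
      (w : M.toStarSubalgebra →ₗ[ℂ] (K →L[ℂ] K)), IsHom w ∧
      (∀ a, ∀ p ∈ F, ‖w a‖ ≤ c * ‖p * a‖) ∧
      (∀ a, star (W a) = W (star a) → star (w a) = w (star a)) ∧
      ∃ (ζ η : HH (Fin m) K) (a b : Fin m → ℝ), (∀ i, 0 ≤ a i) ∧ (∀ i, 0 ≤ b i) ∧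
        (∀ i x, ∀ p ∈ F, ‖w x (ζ i)‖ ≤ a i * ‖p * x‖) ∧
        (∀ i x, ∀ p ∈ F, ‖vmap w x (η i)‖ ≤ b i * ‖p * x‖) ∧
        ∑ i, a i ^ 2 ≤ 1 ∧ ∑ i, b i ^ 2 ≤ 1 ∧ κ ≤ ‖⟪amp w (Fin m) X ζ, η⟫_ℂ‖

/-- Von Neumann algebras. -/
def S_vnbi : Prop :=
  ∀ (L : Type) [NormedAddCommGroup L] [InnerProductSpace ℂ L] [CompleteSpace L]
    (M : VonNeumannAlgebra L) [PartialOrder M.toStarSubalgebra]
    [StarOrderedRing M.toStarSubalgebra]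
    (H : Type) [NormedAddCommGroup H] [InnerProductSpace ℂ H] [CompleteSpace H]
    (W : M.toStarSubalgebra →ₗ[ℂ] (H →L[ℂ] H)), IsHom W → ∀ c : ℝ, 1 ≤ c →
    (∀ a, ‖W a‖ ≤ c * ‖a‖) → ∀ m, Bi W m (1300 * c)

end Y268.D3
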