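import Mathlib
import Pool.Agent.Y268.D3.Stm

/-!
Statements of the pieces of the degree three bound, continued.
-/

open scoped ComplexOrder InnerProductSpace ComplexConjugate Topology
open Finset Filter

noncomputable section

namespace Y268.D3

open H759R2.Kad H711R2.KG

/-- The core mean. -/
def S_core : Prop :=
  ∀ (B : Type) [CStarAlgebra B] [PartialOrder B] [StarOrderedRing B] (τ : B →ₗ[ℂ] ℂ),
    IsTracialState τ → HasDixmier τ → HasOrthA τ →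
    ∀ (K : Type) [NormedAddCommGroup K] [InnerProductSpace ℂ K] [CompleteSpace K]
    (w : B →ₗ[ℂ] (K →L[ℂ] K)), IsHom w → ∀ γ : ℝ, 0 ≤ γ → (∀ b, ‖w b‖ ≤ γ * ‖b‖) →
    ∀ (Γ : Type) [Fintype Γ] [Nonempty Γ] (g : Γ → unitary B), IsGrp g →
    ∃ (q₁ q₂ : Form K) (E₁ E₂ Ec : Mean (unitary B)),
      q₁ ∈ CB (vmap w) ∧ q₂ ∈ CB w ∧ DixMean τ E₁ ∧ DixMean τ E₂ ∧
      (∀ ξ η, E₁.E (fun v => q₁ (vmap w (v : B) ξ) (vmap w (v : B) η)) = q₁ ξ η) ∧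
      (∀ ξ η, E₂.E (fun v => q₂ (w (v : B) ξ) (w (v : B) η)) = q₂ ξ η) ∧
      (∀ i, act (vmap w) (g i : B) q₁ = q₁) ∧ (∀ i, act w (g i : B) q₂ = q₂) ∧
      (∀ (V : unitary B) (ζ ζ' : K),
        Ec.E (fun c => q₁ (vmap w ((V : B) * (c : B)) ζ) (vmap w ((V : B) * (c : B)) ζ')) =
          q₁ ζ ζ') ∧
      (∀ (V : unitary B) (ζ ζ' : K),
        Ec.E (fun c => q₂ (w ((V : B) * star (c : B)) ζ) (w ((V : B) * star (c : B)) ζ')) =
          q₂ ζ ζ') ∧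
      ∀ i (φ : unitary B → ℂ), Ec.E (fun c => φ (g i * c)) = Ec.E φ ∧
        Ec.E (fun c => φ (c * g i)) = Ec.E φ

end Y268.D3
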