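import Mathlib
import Pool.Agent.Y268.D3.Stm3
import Pool.Agent.Y363.D3.Mk
import Pool.Agent.Y455.D3.Maz
import Pool.Agent.Y77.D3.Cb
import Pool.Agent.Y328.D3.Clos
import Pool.Agent.Y328.D3.Dix
import Pool.Agent.Y419.D3.Abs
import Pool.Agent.Y419.D3.Lst
import Pool.Agent.Y968.D3.Col
import Pool.Agent.Y968.D3.Dix
import Pool.Agent.Y461.D3.IsoAlg
import Pool.Agent.Y925.D3.IsoN
import Pool.Agent.Y445.D3.IsoGT
import Pool.Agent.Y349.D3.IsoM
import Pool.Agent.Y394.D3.Core
import Pool.Agent.Y510.D3.Pair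
import Pool.Agent.Y79.D3.Joint
import Pool.Agent.Y333.D3.Mid
import Pool.Agent.Y576.D3.Det
import Pool.Agent.Y604.D3.Up
import Pool.Agent.Y43.D3.UpC
import Pool.Agent.Y764.D3.Unit
import Pool.Agent.Y188.D3.All
import Pool.Agent.Y232.D3.Unnest
import Pool.Agent.Y141.D3.SmallBi
import Pool.Agent.Z864.D3.CenB
import Pool.Agent.Y839.D3.CenA
import Pool.Agent.Y363.D3.Simbi

/-!
Assembly of the pieces of the degree three bound, from the pieces proved separately.
-/

noncomputable section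

namespace Y268.D3

open Pool.Agent

theorem isoN_of (hd : S_doubling) (hG : S_isoGT) : S_isoN :=
  Y925.D3.isoN0 Y363.D3.prove_real
    (fun B _ _ _ f C hC hf n hV => Y461.D3.isoAlg0 B f C hf hC n hV) hG hd

theorem core_all : S_core :=
  _root_.Y394.D3Core.prove_core Y363.D3.prove_real Y77.D3.prove_cb
    (Y328.D3.prove_clos Y455.D3.prove_mazur Y77.D3.prove_cb)
    (Y968.D3.prove_collapse Y419.D3.prove_abs Y363.D3.prove_mkmean Y363.D3.prove_real
      Y77.D3.prove_cb)

theorem CT_of (hisoN : S_isoN) (hsides : S_real → S_cb → S_dixform → S_core → S_dixmean →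
    S_isoM → S_M2 → S_sides) (hwords : S_words) (hcol : S_col) (hrow : S_row) (hup : S_up) :
    S_CT :=
  Y232.D3.prove_CT _root_.Y349.D3.prove_M2
    (_root_.Y188.D3.prove_all3 Y77.D3.prove_cb _root_.Y349.D3.prove_M2
      (hsides Y363.D3.prove_real Y77.D3.prove_cb
        (Y328.D3.prove_dixform Y455.D3.prove_mazur Y77.D3.prove_cb) core_all
        (Y968.D3.prove_dixmean Y363.D3.prove_mkmean) (_root_.Y349.D3.prove_isoM hisoN)
        _root_.Y349.D3.prove_M2)
      (Y79.D3.prove_joint Y510.D3.prove_pair hwords)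
      (_root_.Y764.D3.prove_unit3 Y363.D3.prove_real hcol (_root_.Y333.D3.prove_mid hrow)
        _root_.Y576.D3.prove_det hup))
    (Y232.D3.prove_unnest Y77.D3.prove_cb)

end Y268.D3
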