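import Mathlib
import Pool.Agent.Y268.D3.AsmA
import Pool.Agent.Y155.D3.W3
import Pool.Agent.Y306.D3.ColRow
import Pool.Agent.Y79.D3.Up
import Pool.Agent.Y447.D3.Dbl
import Pool.Agent.Y657.D3.Sides

/-!
The main inequality for algebras with a Dixmier trace.
-/

noncomputable section

namespace Y268.D3

open Pool.Agent

/-- The main inequality. -/
theorem ct : S_CT :=
  CT_of (isoN_of (Y447.D3.t Y363.D3.prove_real)
      (_root_.Y445.D3.isoGT Y455.D3.prove_mazur Y363.D3.prove_real))
    _root_.Y657.D3.prove_sides Y155.D3.prove_words Y306.D3.prove_col Y306.D3.prove_row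
    (Y79.D3.prove_up Y363.D3.prove_real (Y604.D3.prove_upA Y419.D3.prove_lst)
      (Y604.D3.prove_upB Y419.D3.prove_lst)
      (Y43.D3.prove_upC Y455.D3.prove_mazur Y363.D3.prove_real))

end Y268.D3
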