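import Mathlib
import Pool.Agent.Y268.D3.Stm3
import Pool.Agent.Y268.Kad.Top

/-!
From the bilinear bound to complete boundedness.
-/

open scoped ComplexOrder InnerProductSpace ComplexConjugate
open Finset

noncomputable section

namespace Y268.D3

open H759R2.Kad H711R2.KG

variable {B : Type} [CStarAlgebra B] [PartialOrder B] [StarOrderedRing B]
  {H : Type} [NormedAddCommGroup H] [InnerProductSpace ℂ H] [CompleteSpace H]

theorem lvl_of_bi (u : B →ₗ[ℂ] (H →L[ℂ] H)) {c : ℝ} (hc : 0 ≤ c) (hb : ∀ b, ‖u b‖ ≤ c * ‖b‖)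
    {m : ℕ} {C : ℝ} (hC : 0 ≤ C) (h : Bi u m C) : LvlBd u m (C * c ^ 2) := by
  intro X
  refine ContinuousLinearMap.opNorm_le_bound _ (by positivity) fun ζ => ?_
  have hv : ∀ x, ‖vmap u x‖ ≤ c * ‖x‖ := by
    intro x
    have e : ‖vmap u x‖ = ‖u (star x)‖ := by
      rw [vmap_apply]
      exact norm_star _
    rw [e, ← norm_star x]
    exact hb _
  have key := h X ζ (amp u (Fin m) X ζ) (fun i => c * ‖ζ i‖)
    (fun i => c * ‖amp u (Fin m) X ζ i‖) (fun i => by positivity) (fun i => by positivity)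
    (fun i x => by
      calc ‖u x (ζ i)‖ ≤ ‖u x‖ * ‖ζ i‖ := ContinuousLinearMap.le_opNorm _ _
        _ ≤ c * ‖x‖ * ‖ζ i‖ := by gcongr; exact hb x
        _ = _ := by ring)
    (fun i x => by
      calc ‖vmap u x (amp u (Fin m) X ζ i)‖ ≤ ‖vmap u x‖ * ‖amp u (Fin m) X ζ i‖ :=
            ContinuousLinearMap.le_opNorm _ _
        _ ≤ c * ‖x‖ * ‖amp u (Fin m) X ζ i‖ := by gcongr; exact hv x
        _ = _ := by ring)
  have e1 : ∑ i, (c * ‖ζ i‖) ^ 2 = c ^ 2 * ‖ζ‖ ^ 2 := by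
    rw [PiLp.norm_sq_eq_of_L2, Finset.mul_sum]
    exact Finset.sum_congr rfl fun i _ => by ring
  have e2 : ∑ i, (c * ‖amp u (Fin m) X ζ i‖) ^ 2 = c ^ 2 * ‖amp u (Fin m) X ζ‖ ^ 2 := by
    rw [PiLp.norm_sq_eq_of_L2, Finset.mul_sum]
    exact Finset.sum_congr rfl fun i _ => by ring
  rw [e1, e2, inner_self_eq_norm_sq_to_K] at key
  set s : ℝ := ‖amp u (Fin m) X ζ‖ with hs
  have hs0 : 0 ≤ s := norm_nonneg _
  have e3 : ‖((s : ℝ) : ℂ) ^ 2‖ = s ^ 2 := by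
    rw [norm_pow, Complex.norm_real, Real.norm_eq_abs, sq_abs]
  have key2 : (s ^ 2) ^ 2 ≤ C ^ 2 * ‖X‖ ^ 2 * (c ^ 2 * ‖ζ‖ ^ 2) * (c ^ 2 * s ^ 2) := by
    have h9 : ‖((s : ℝ) : ℂ) ^ 2‖ ^ 2 ≤
        C ^ 2 * ‖X‖ ^ 2 * (c ^ 2 * ‖ζ‖ ^ 2) * (c ^ 2 * s ^ 2) := key
    rw [e3] at h9
    exact h9
  rcases eq_or_lt_of_le hs0 with h0 | h0
  · rw [← h0]
    positivity
  · have : s ^ 2 ≤ (C * c ^ 2 * ‖X‖ * ‖ζ‖) ^ 2 := by
      have h1 : s ^ 2 * s ^ 2 ≤ (C * c ^ 2 * ‖X‖ * ‖ζ‖) ^ 2 * s ^ 2 := by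
        calc s ^ 2 * s ^ 2 = (s ^ 2) ^ 2 := by ring
          _ ≤ _ := key2
          _ = _ := by ring
      exact le_of_mul_le_mul_right h1 (by positivity)
    exact (abs_le_of_sq_le_sq' this (by positivity)).2

theorem vn3_of (h : S_vnbi) : Y268.Kad.VnBd (fun c => 1300 * c ^ 3) := by
  intro L _ _ _ M _ _ H _ _ _ W hW c hc hWc m
  have hc0 : 0 ≤ c := by linarith
  have h1 := lvl_of_bi W hc0 hWc (by positivity) (h L M H W hW c hc hWc m)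
  have e : 1300 * c * c ^ 2 = 1300 * c ^ 3 := by ring
  rw [e] at h1
  exact h1

theorem cb3_of (h : S_vnbi) (k : ℝ) (hk : 1 ≤ k) (h2 : Y268.Kad.Ext k) :
    Y268.Kad.CbBd (fun c => 1300 * (k * c) ^ 3) :=
  Y268.Kad.cb_of (fun c => 1300 * c ^ 3) (fun c hc => by positivity) k hk h2 (vn3_of h)

end Y268.D3
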