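import Mathlib
import Pool.Agent.Y268.D3.AsmB
import Pool.Agent.Y268.D3.LvlBi
import Pool.Agent.Y739.D3.VNBI
import Pool.Agent.Z932.D3.Fibbi
import Pool.Agent.Y71.D3.NoTrBi

/-!
Degree three: assembly.
-/

noncomputable section

namespace Y268.D3

open Pool.Agent

/-- Von Neumann algebras. -/
theorem vnbi : S_vnbi :=
  Y739.D3.prove_vnbi Y363.D3.prove_simbi (Z932.D3.prove_fibbi ct Y77.D3.prove_cb)
    Y141.D3.prove_smallbi Y71.D3.prove_notracebi Y839.D3.prove_cenA Z864.D3.cenB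

/-- The bound for all C*-algebras. -/
theorem cb3 : Y268.Kad.CbBd (fun c => 1300 * (2 * c) ^ 3) :=
  cb3_of vnbi 2 (by norm_num) Y268.Kad.ext_two

end Y268.D3
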