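import Mathlib
import Pool.Agent.Y268.D3.Asm
import Pool.Agent.Y968.D3.Ext1

/-!
Degree three, with the norm preserving extension to von Neumann algebras.
-/

noncomputable section

namespace Y268.D3

open Pool.Agent

/-- The bound for all C*-algebras. -/
theorem cb3' : Y268.Kad.CbBd (fun c => 1300 * c ^ 3) := by
  have h := cb3_of vnbi 1 le_rfl Y968.D3.prove_ext1
  simpa only [one_mul] using h

end Y268.D3
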